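import Mathlib

/-!
# A tree with more branches than nodes

`W` is a well-ordered set such that `2 ^ W` is bigger than the continuum, but `2 ^ (Iio a)` is not,
for `a ∈ W`.  The nodes of the tree are the partial functions from `W` to `Bool` whose domain is an
initial segment of `W` (or `W` itself).
-/

set_option autoImplicit false

open Cardinal Set

namespace Pool.Agent.H110.PG

/-- Nodes: functions from an initial segment of `W` to `Bool`. -/
@[ext] structure Nd (W : Type) [LinearOrder W] where
  /-- the partial function -/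
  v : W → Option Bool
  low : ∀ i j, i ≤ j → v j ≠ none → v i ≠ none

variable {W : Type} [LinearOrder W]

instance : PartialOrder (Nd W) where
  le s t := ∀ i, s.v i = none ∨ s.v i = t.v i
  le_refl s i := Or.inr rfl
  le_trans s t u h1 h2 i := by
    rcases h1 i with h | h
    · exact Or.inl h
    · rcases h2 i with h' | h'
      · exact Or.inl (h.trans h')
      · exact Or.inr (h.trans h')
  le_antisymm s t h1 h2 := by
    ext1
    funext i
    rcases h1 i with h | h
    · rcases h2 i with h' | h'
      · rw [h, h']
      · rw [h']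
    · exact h

theorem le_def (s t : Nd W) : s ≤ t ↔ ∀ i, s.v i = none ∨ s.v i = t.v i := Iff.rfl

/-- the full branch -/
def full (f : W → Bool) : Nd W := ⟨fun i => some (f i), fun _ _ _ _ => by simp⟩

/-- the restriction of a branch to the elements below `j` -/
def trunc (f : W → Bool) (j : W) : Nd W :=
  ⟨fun i => if i < j then some (f i) else none, fun i k hik h => by
    have : k < j := by
      by_contra hc
      simp [hc] at h
    simp [lt_of_le_of_lt hik this]⟩

theorem full_inj {f g : W → Bool} (h : full f = full g) : f = g := by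
  funext i
  have := congrArg (fun t => t.v i) h
  simpa [full] using this

theorem trunc_eq_iff {f g : W → Bool} {j : W} : trunc f j = trunc g j ↔ ∀ i < j, f i = g i := by
  constructor
  · intro h i hi
    have := congrArg (fun t => t.v i) h
    simpa [trunc, hi] using this
  · intro h
    ext1
    funext i
    by_cases hi : i < j
    · simp [trunc, hi, h i hi]
    · simp [trunc, hi]

theorem trunc_level {f g : W → Bool} {j k : W} (h : trunc f j = trunc g k) : j = k := by
  by_contra hne
  rcases lt_or_gt_of_ne hne with hlt | hlt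
  · have := congrArg (fun t => t.v j) h
    simp [trunc, hlt] at this
  · have := congrArg (fun t => t.v k) h
    simp [trunc, hlt] at this

theorem trunc_ne_full {f g : W → Bool} {j : W} : trunc f j ≠ full g := by
  intro h
  have := congrArg (fun t => t.v j) h
  simp [trunc, full] at this

theorem full_le_full {f g : W → Bool} (h : full f ≤ full g) : f = g := by
  funext i
  have := h i
  simpa [full] using this

theorem trunc_le_full {f g : W → Bool} {j : W} : trunc f j ≤ full g ↔ trunc f j = trunc g j := by
  rw [trunc_eq_iff]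
  constructor
  · intro h i hi
    have := h i
    simpa [trunc, full, hi] using this
  · intro h i
    by_cases hi : i < j
    · simp [trunc, full, hi, h i hi]
    · simp [trunc, hi]

theorem trunc_v_ne {f : W → Bool} {i j : W} : (trunc f j).v i ≠ none ↔ i < j := by
  by_cases hi : i < j <;> simp [trunc, hi]

/-- Every node is a full branch or the restriction of a branch. -/
theorem node_cases [WellFoundedLT W] (s : Nd W) : (∃ g, s = full g) ∨ ∃ g j, s = trunc g j := by
  classical
  by_cases h : ∃ i, s.v i = none
  · right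
    let j := WellFounded.min (wellFounded_lt (α := W)) {i | s.v i = none} h
    have hj : s.v j = none := WellFounded.min_mem _ {i | s.v i = none} h
    refine ⟨fun i => (s.v i).getD false, j, ?_⟩
    ext1
    funext i
    by_cases hi : i < j
    · have : s.v i ≠ none := fun hc =>
        WellFounded.not_lt_min (wellFounded_lt (α := W)) {i | s.v i = none} hc hi
      obtain ⟨b, hb⟩ := Option.ne_none_iff_exists'.1 this
      simp [trunc, hi, hb]
    · have : s.v i = none := by
        by_contra hc
        exact s.low j i (not_lt.1 hi) hc hj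
      simp [trunc, hi, this]
  · left
    push Not at h
    refine ⟨fun i => (s.v i).getD false, ?_⟩
    ext1
    funext i
    obtain ⟨b, hb⟩ := Option.ne_none_iff_exists'.1 (h i)
    simp [full, hb]

/-- The cardinal conditions on `W`. -/
structure Good (W : Type) [LinearOrder W] [WellFoundedLT W] : Prop where
  small : #W ≤ 𝔠
  big : 𝔠 < #(W → Bool)
  seg : ∀ a : W, #(Set.Iio a → Bool) ≤ 𝔠

theorem exists_good : ∃ (W : Type) (_ : LinearOrder W) (_ : WellFoundedLT W), Good W := by
  have hne : {o : Ordinal.{0} | 𝔠 < 2 ^ o.card}.Nonempty := by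
    refine ⟨(𝔠 : Cardinal.{0}).ord, ?_⟩
    simp only [mem_ofPred_eq, card_ord]
    exact cantor 𝔠
  let o := WellFounded.min (wellFounded_lt (α := Ordinal.{0})) _ hne
  have ho : 𝔠 < 2 ^ o.card := WellFounded.min_mem _ _ hne
  have hmin : ∀ p < o, 2 ^ p.card ≤ 𝔠 := by
    intro p hp
    by_contra hc
    exact WellFounded.not_lt_min (wellFounded_lt (α := Ordinal.{0}))
      {o : Ordinal.{0} | 𝔠 < 2 ^ o.card} (not_le.1 hc) hp
  have hle : o ≤ (𝔠 : Cardinal.{0}).ord := by
    by_contra hc
    have := hmin _ (not_le.1 hc)
    rw [card_ord] at this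
    exact absurd (cantor 𝔠) (not_lt.2 this)
  refine ⟨o.ToType, inferInstance, inferInstance, ?_, ?_, ?_⟩
  · rw [Cardinal.mk_toType]
    have := Ordinal.card_le_card hle
    rwa [card_ord] at this
  · simpa using ho
  · intro a
    have h1 : #(Set.Iio a) = (Ordinal.typein (α := o.ToType) (· < ·) a).card :=
      Ordinal.card_typein (r := ((· < ·) : o.ToType → o.ToType → Prop)) a
    have := hmin _ (Ordinal.typein_lt_self a)
    simpa [h1] using this

section
variable [WellFoundedLT W]

theorem Good.mk_sigma (hW : Good W) : #(Σ j : W, (Set.Iio j → Bool)) ≤ 𝔠 := by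
  rw [Cardinal.mk_sigma]
  calc Cardinal.sum (fun j : W => #(Set.Iio j → Bool)) ≤ Cardinal.sum (fun _ : W => 𝔠) :=
        Cardinal.sum_le_sum _ _ hW.seg
    _ = #W * 𝔠 := by simp
    _ ≤ 𝔠 * 𝔠 := by gcongr; exact hW.small
    _ = 𝔠 := by simp

theorem Good.seg' (hW : Good W) (a : W) : #(Set.Iic a → Bool) ≤ 𝔠 := by
  have hinj : Function.Injective (fun f : Set.Iic a → Bool =>
      ((fun i : Set.Iio a => f ⟨i.1, le_of_lt i.2⟩, f ⟨a, le_rfl⟩) :
        (Set.Iio a → Bool) × Bool)) := by
    intro f g h
    simp only [Prod.mk.injEq] at h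
    funext ⟨i, hi⟩
    rcases lt_or_eq_of_le (show i ≤ a from hi) with h' | h'
    · exact congrFun h.1 ⟨i, h'⟩
    · subst h'
      exact h.2
  calc #(Set.Iic a → Bool) ≤ #((Set.Iio a → Bool) × Bool) := mk_le_of_injective hinj
    _ = #(Set.Iio a → Bool) * 2 := by simp
    _ ≤ 𝔠 * 𝔠 := by
        gcongr
        · exact hW.seg a
        · exact (Cardinal.nat_lt_continuum 2).le
    _ = 𝔠 := by simp

/-- Countable subsets of `W` are bounded. -/
theorem Good.bdd (hW : Good W) (C : Set W) (hC : C.Countable) : ∃ b : W, ∀ c ∈ C, c < b := by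
  by_contra hcon
  push Not at hcon
  have hinj : Function.Injective (fun (f : W → Bool) (c : C) (i : Set.Iic c.1) => f i.1) := by
    intro f g h
    funext b
    obtain ⟨c, hc, hbc⟩ := hcon b
    exact congrFun (congrFun h ⟨c, hc⟩) ⟨b, hbc⟩
  have h1 : #(W → Bool) ≤ #((c : C) → (Set.Iic c.1 → Bool)) := mk_le_of_injective hinj
  have h2 : #((c : C) → (Set.Iic c.1 → Bool)) ≤ 𝔠 := by
    rw [Cardinal.mk_pi]
    calc Cardinal.prod (fun c : C => #(Set.Iic c.1 → Bool)) ≤ Cardinal.prod (fun _ : C => 𝔠) :=
          Cardinal.prod_le_prod _ _ fun c => hW.seg' c.1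
      _ = 𝔠 ^ #C := by simp
      _ ≤ 𝔠 ^ ℵ₀ := Cardinal.power_le_power_left (Cardinal.continuum_ne_zero) (by
          rw [Cardinal.le_aleph0_iff_set_countable]; exact hC)
      _ = 𝔠 := by simp
  exact absurd (h1.trans h2) (not_le.2 hW.big)

theorem Good.nonempty (hW : Good W) : Nonempty W := by
  obtain ⟨b, _⟩ := hW.bdd ∅ countable_empty
  exact ⟨b⟩

end

end Pool.Agent.H110.PG
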