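import Pool.Agent.H110.PG.A1

set_option autoImplicit false

open Cardinal Set

namespace Pool.Agent.H110.PG

theorem pigeon {α β : Type} (F : β → α) (hα : #α ≤ 𝔠) (hβ : 𝔠 < #β) :
    ∃ a, 𝔠 < #(F ⁻¹' {a} : Set β) := by
  by_contra hcon
  push Not at hcon
  have : #β ≤ 𝔠 := by
    calc #β = #(Σ a : α, {b // F b = a}) := (Cardinal.mk_congr (Equiv.sigmaFiberEquiv F)).symm
      _ = Cardinal.sum (fun a => #{b // F b = a}) := Cardinal.mk_sigma _
      _ ≤ Cardinal.sum (fun _ : α => 𝔠) := Cardinal.sum_le_sum _ _ (fun a => hcon a)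
      _ = #α * 𝔠 := by simp
      _ ≤ 𝔠 * 𝔠 := by gcongr
      _ = 𝔠 := by simp
  exact absurd this (not_le.2 hβ)

theorem small_union {ι β : Type} (S : ι → Set β) (hι : #ι ≤ 𝔠) (h : ∀ i, #(S i) ≤ 𝔠) :
    #(⋃ i, S i) ≤ 𝔠 := by
  calc #(⋃ i, S i) ≤ Cardinal.sum (fun i => #(S i)) := Cardinal.mk_iUnion_le_sum_mk
    _ ≤ Cardinal.sum (fun _ : ι => 𝔠) := Cardinal.sum_le_sum _ _ h
    _ = #ι * 𝔠 := by simp
    _ ≤ 𝔠 * 𝔠 := by gcongr
    _ = 𝔠 := by simp

variable {W : Type} [LinearOrder W] [WellFoundedLT W]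

theorem dense_part (hW : Good W) (G : Set (W → Bool)) (hG : 𝔠 < #G) :
    ∃ G' ⊆ G, G'.Nonempty ∧ ∀ f ∈ G', ∀ (l : W) (N : Set (W → Bool)), N.Countable →
      ∃ g ∈ G', (∀ i < l, g i = f i) ∧ g ∉ N := by
  classical
  let fib : W → (W → Bool) → Set (W → Bool) := fun l f => {g | g ∈ G ∧ ∀ i < l, g i = f i}
  let G' : Set (W → Bool) := {f | f ∈ G ∧ ∀ l, 𝔠 < #(fib l f)}
  let S : (Σ j : W, (Set.Iio j → Bool)) → Set (W → Bool) :=
    fun z => {g | g ∈ G ∧ ∀ i : Set.Iio z.1, g i = z.2 i}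
  have hbad : #(↥(G \ G')) ≤ 𝔠 := by
    have hsub : G \ G' ⊆ ⋃ z : {z // #(S z) ≤ 𝔠}, S z.1 := by
      rintro f ⟨hf, hf'⟩
      have : ∃ l, #(fib l f) ≤ 𝔠 := by
        by_contra hc
        push Not at hc
        exact hf' ⟨hf, hc⟩
      obtain ⟨l, hl⟩ := this
      have heq : S ⟨l, fun i => f i⟩ = fib l f := by
        ext g
        constructor
        · rintro ⟨h1, h2⟩
          exact ⟨h1, fun i hi => h2 ⟨i, hi⟩⟩
        · rintro ⟨h1, h2⟩
          exact ⟨h1, fun i => h2 i.1 i.2⟩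
      refine mem_iUnion.2 ⟨⟨⟨l, fun i => f i⟩, by rw [heq]; exact hl⟩, ?_⟩
      rw [heq]
      exact ⟨hf, fun i _ => rfl⟩
    refine (Cardinal.mk_le_mk_of_subset hsub).trans (small_union _ ?_ fun z => z.2)
    exact (Cardinal.mk_subtype_le _).trans hW.mk_sigma
  refine ⟨G', fun f hf => hf.1, ?_, ?_⟩
  · by_contra hc
    rw [not_nonempty_iff_eq_empty] at hc
    rw [hc, sdiff_empty] at hbad
    exact absurd hG (not_lt.2 hbad)
  · intro f hf l N hN
    by_contra hc
    push Not at hc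
    have hsub : fib l f ⊆ (G \ G') ∪ N := by
      rintro g ⟨hg, hgf⟩
      by_cases h : g ∈ G'
      · exact Or.inr (hc g h hgf)
      · exact Or.inl ⟨hg, h⟩
    have h1 : #(fib l f) ≤ 𝔠 := by
      calc #(fib l f) ≤ #(↥((G \ G') ∪ N)) := Cardinal.mk_le_mk_of_subset hsub
        _ ≤ #(↥(G \ G')) + #N := Cardinal.mk_union_le _ _
        _ ≤ 𝔠 + 𝔠 := by
            gcongr
            exact (Cardinal.le_aleph0_iff_set_countable.2 hN).trans Cardinal.aleph0_le_continuum
        _ = 𝔠 := by simp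
    exact absurd (hf.2 l) (not_lt.2 h1)

theorem level_bdd (hW : Good W) (A : Set (Nd W)) (hA : A.Countable) :
    ∃ l : W, ∀ (g : W → Bool) (j : W), trunc g j ∈ A → j < l := by
  classical
  let C : Set W := {j | ∃ g, trunc g j ∈ A}
  have hC : C.Countable := by
    have hch : ∀ j : W, ∃ g : W → Bool, j ∈ C → trunc g j ∈ A := by
      intro j
      by_cases hj : j ∈ C
      · obtain ⟨g, hg⟩ := hj
        exact ⟨g, fun _ => hg⟩
      · exact ⟨fun _ => false, fun h => absurd h hj⟩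
    choose φ hφ using hch
    refine Set.countable_of_injective_of_countable_image (f := fun j => trunc (φ j) j) ?_ ?_
    · intro j _ k _ h
      exact trunc_level h
    · refine hA.mono ?_
      rintro _ ⟨j, hj, rfl⟩
      exact hφ j hj
  obtain ⟨l, hl⟩ := hW.bdd C hC
  exact ⟨l, fun g j h => hl j ⟨g, h⟩⟩

/-- The combinatorial heart: no assignment of countable sets `V i f` to the intervals
`{s ≤ full f | i ∈ dom s}` separates. -/
theorem comb (hW : Good W) (V : W → (W → Bool) → Set (Nd W)) (hV : ∀ i f, (V i f).Countable) :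
    ∃ (i : ℕ → W) (f : ℕ → W → Bool) (e : Nd W),
      (∀ n, e ≤ full (f n) ∧ e.v (i n) ≠ none) ∧
      ∀ m, ∀ s ∈ V (i m) (f m), {n | s ≤ full (f n) ∧ s.v (i n) ≠ none}.Finite := by
  classical
  have hb : ∀ (i : W) (f : W → Bool), ∃ b, i < b ∧ ∀ j, trunc f j ∈ V i f → j < b := by
    intro i f
    have hc : ({i} ∪ {j | trunc f j ∈ V i f} : Set W).Countable := by
      refine (countable_singleton i).union ?_
      refine (hV i f).preimage_of_injOn (f := fun j => trunc f j) ?_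
      intro j _ k _ h
      exact trunc_level h
    obtain ⟨b, hb⟩ := hW.bdd _ hc
    exact ⟨b, hb i (Or.inl rfl), fun j hj => hb j (Or.inr hj)⟩
  choose b hb1 hb2 using hb
  obtain ⟨w0⟩ := hW.nonempty
  let I : (W → Bool) → ℕ → W := fun f n => Nat.rec w0 (fun _ x => b x f) n
  have hIs : ∀ f n, I f (n + 1) = b (I f n) f := fun _ _ => rfl
  have hδ : ∀ f, ∃ d, (∀ n, I f n < d) ∧ ∀ j < d, ∃ n, j ≤ I f n := by
    intro f
    obtain ⟨c, hc⟩ := hW.bdd (range (I f)) (countable_range _)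
    have hne : {d | ∀ n, I f n < d}.Nonempty := ⟨c, fun n => hc _ ⟨n, rfl⟩⟩
    refine ⟨WellFounded.min (wellFounded_lt (α := W)) _ hne, WellFounded.min_mem _ _ hne, ?_⟩
    intro j hj
    by_contra hcon
    push Not at hcon
    exact WellFounded.not_lt_min (wellFounded_lt (α := W)) {d | ∀ n, I f n < d} hcon hj
  choose δ hδ1 hδ2 using hδ
  let P : (W → Bool) → (ℕ → W) × (Σ j : W, (Set.Iio j → Bool)) :=
    fun f => (I f, ⟨δ f, fun i => f i⟩)
  have hcod : #((ℕ → W) × (Σ j : W, (Set.Iio j → Bool))) ≤ 𝔠 := by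
    rw [Cardinal.mk_prod, Cardinal.lift_id, Cardinal.lift_id]
    have h1 : #(ℕ → W) ≤ 𝔠 := by
      calc #(ℕ → W) = #W ^ ℵ₀ := by simp
        _ ≤ 𝔠 ^ ℵ₀ := Cardinal.power_le_power_right hW.small
        _ = 𝔠 := by simp
    calc #(ℕ → W) * #(Σ j : W, (Set.Iio j → Bool)) ≤ 𝔠 * 𝔠 := by
          gcongr
          exact hW.mk_sigma
      _ = 𝔠 := by simp
  obtain ⟨z, hz⟩ := pigeon P hcod hW.big
  obtain ⟨G', hG', ⟨g0, hg0⟩, hdense⟩ := dense_part hW (P ⁻¹' {z}) hz
  obtain ⟨i, ⟨d, p⟩⟩ := z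
  have hI : ∀ f ∈ G', I f = i := fun f hf => congrArg Prod.fst (hG' hf)
  have hP2 : ∀ f ∈ G', (⟨δ f, fun i => f i⟩ : Σ j : W, (Set.Iio j → Bool)) = ⟨d, p⟩ :=
    fun f hf => congrArg Prod.snd (hG' hf)
  have hd : ∀ f ∈ G', δ f = d := fun f hf => congrArg Sigma.fst (hP2 f hf)
  have hp : ∀ f ∈ G', ∀ k (hk : k < d), f k = p ⟨k, hk⟩ := by
    intro f hf k hk
    have h1 := hP2 f hf
    have h2 := hd f hf
    subst h2
    have h3 := eq_of_heq (Sigma.mk.inj h1).2
    exact congrFun h3 ⟨k, hk⟩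
  let St := {q : (W → Bool) × W × Set (W → Bool) // q.1 ∈ G' ∧ q.2.2.Countable}
  have step : ∀ (n : ℕ) (q : St), ∃ r : St, (∀ k < q.1.2.1, r.1.1 k = q.1.1 k) ∧
      r.1.1 ∉ q.1.2.2 ∧ q.1.2.1 ≤ r.1.2.1 ∧ q.1.2.2 ⊆ r.1.2.2 ∧ r.1.1 ∈ r.1.2.2 ∧
      ∀ (g : W → Bool) (j : W), trunc g j ∈ V (i (n + 1)) r.1.1 → j < r.1.2.1 := by
    rintro n ⟨⟨f, l, N⟩, hf, hN⟩
    obtain ⟨g, hg, hgf, hgN⟩ := hdense f hf l N hN
    obtain ⟨l', hl'⟩ := level_bdd hW _ (hV (i (n + 1)) g)
    refine ⟨⟨⟨g, max l l', N ∪ {g}⟩, hg, hN.union (countable_singleton g)⟩, hgf, hgN,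
      le_max_left _ _, subset_union_left, Or.inr rfl, ?_⟩
    intro g' j h
    exact lt_of_lt_of_le (hl' g' j h) (le_max_right _ _)
  choose st hst1 hst2 hst3 hst4 hst5 hst6 using step
  obtain ⟨l0, hl0⟩ := level_bdd hW _ (hV (i 0) g0)
  let q0 : St := ⟨⟨g0, l0, {g0}⟩, hg0, countable_singleton g0⟩
  let q : ℕ → St := fun n => Nat.rec q0 (fun k x => st k x) n
  have hqs : ∀ n, q (n + 1) = st n (q n) := fun _ => rfl
  let f : ℕ → W → Bool := fun n => (q n).1.1
  have hfG : ∀ n, f n ∈ G' := fun n => (q n).2.1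
  have hl : ∀ m, ∀ (g : W → Bool) (j : W), trunc g j ∈ V (i m) (f m) → j < (q m).1.2.1 := by
    intro m
    cases m with
    | zero => exact hl0
    | succ m => exact hst6 m (q m)
  have hmono : ∀ m n, m ≤ n → (q m).1.2.1 ≤ (q n).1.2.1 := by
    intro m n hmn
    induction n, hmn using Nat.le_induction with
    | base => exact le_rfl
    | succ n _ ih => exact ih.trans (hst3 n (q n))
  have hNmono : ∀ m n, m ≤ n → (q m).1.2.2 ⊆ (q n).1.2.2 := by
    intro m n hmn
    induction n, hmn using Nat.le_induction with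
    | base => exact Subset.rfl
    | succ n _ ih => exact ih.trans (hst4 n (q n))
  have hself : ∀ m, f m ∈ (q m).1.2.2 := by
    intro m
    cases m with
    | zero => exact rfl
    | succ m => exact hst5 m (q m)
  have hagree : ∀ m n, m ≤ n → ∀ k < (q m).1.2.1, f n k = f m k := by
    intro m n hmn
    induction n, hmn using Nat.le_induction with
    | base => intro k _; rfl
    | succ n hn ih =>
      intro k hk
      rw [← ih k hk]
      exact hst1 n (q n) k (lt_of_lt_of_le hk (hmono m n hn))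
  have hdist : ∀ m n, m < n → f m ≠ f n := by
    intro m n hmn heq
    obtain ⟨n, rfl⟩ : ∃ n', n = n' + 1 := ⟨n - 1, by omega⟩
    have h1 : f m ∈ (q n).1.2.2 := hNmono m n (by omega) (hself m)
    have h2 : f m = (st n (q n)).1.1 := heq
    rw [h2] at h1
    exact hst2 n (q n) h1
  have hid : ∀ n, i n < d := by
    intro n
    have := hδ1 g0 n
    rwa [hI g0 hg0, hd g0 hg0] at this
  have hsup : ∀ j < d, ∃ n, j ≤ i n := by
    intro j hj
    have := hδ2 g0 j (by rw [hd g0 hg0]; exact hj)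
    rwa [hI g0 hg0] at this
  have hisucc : ∀ g ∈ G', ∀ n, i (n + 1) = b (i n) g := by
    intro g hg n
    have := hIs g n
    rwa [hI g hg] at this
  have himono : ∀ m n, m ≤ n → i m ≤ i n := by
    intro m n hmn
    induction n, hmn using Nat.le_induction with
    | base => exact le_rfl
    | succ n _ ih =>
      rw [hisucc g0 hg0 n]
      exact ih.trans (hb1 _ _).le
  refine ⟨i, f, trunc g0 d, fun n => ⟨?_, trunc_v_ne.2 (hid n)⟩, ?_⟩
  · rw [trunc_le_full, trunc_eq_iff]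
    intro k hk
    rw [hp g0 hg0 k hk, hp (f n) (hfG n) k hk]
  · intro m s hs
    rcases node_cases s with ⟨g, rfl⟩ | ⟨g, j, rfl⟩
    · refine Set.Subsingleton.finite ?_
      rintro n ⟨hn, _⟩ n' ⟨hn', _⟩
      have h1 := full_le_full hn
      have h2 := full_le_full hn'
      by_contra hne
      rcases lt_or_gt_of_ne hne with h | h
      · exact hdist _ _ h (h1.symm.trans h2)
      · exact hdist _ _ h (h2.symm.trans h1)
    · by_cases hj : j < d
      · obtain ⟨N, hN⟩ := hsup j hj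
        refine (Set.finite_lt_nat N).subset ?_
        rintro n ⟨_, hn⟩
        have h1 : i n < j := trunc_v_ne.1 hn
        by_contra hc
        exact absurd (lt_of_lt_of_le h1 hN) (not_lt.2 (himono N n (not_lt.1 hc)))
      · have hkey : trunc g j ≠ trunc (f m) j := by
          intro h
          rw [h] at hs
          have h1 := hb2 (i m) (f m) j hs
          rw [← hisucc (f m) (hfG m) m] at h1
          exact hj (h1.trans (hid (m + 1)))
        refine (Set.finite_lt_nat m).subset ?_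
        rintro n ⟨hn, _⟩
        rw [trunc_le_full] at hn
        by_contra hc
        have hmn : m ≤ n := not_lt.1 hc
        apply hkey
        rw [hn, trunc_eq_iff]
        intro k hk
        exact hagree m n hmn k (hk.trans (hl m g j hs))

end Pool.Agent.H110.PG
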