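import Pool.Agent.H110.PG.A1

/-!
# Functions on the tree spanned by the indicator functions of the initial segments
-/

set_option autoImplicit false

open Set Filter Topology

namespace Pool.Agent.H110.PG

variable {W : Type} [LinearOrder W]

noncomputable instance : SemilatticeInf (Nd W) := by
  classical
  exact
  { (inferInstance : PartialOrder (Nd W)) with
    inf := fun s t => ⟨fun i => if ∀ k ≤ i, s.v k = t.v k then s.v i else none, by
      intro i j hij h
      by_cases hj : ∀ k ≤ j, s.v k = t.v k
      · rw [if_pos hj] at h
        rw [if_pos fun k hk => hj k (hk.trans hij)]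
        exact s.low i j hij h
      · rw [if_neg hj] at h
        exact absurd rfl h⟩
    inf_le_left := by
      intro s t i
      change (if ∀ k ≤ i, s.v k = t.v k then s.v i else none) = none ∨
        (if ∀ k ≤ i, s.v k = t.v k then s.v i else none) = s.v i
      by_cases hj : ∀ k ≤ i, s.v k = t.v k
      · exact Or.inr (if_pos hj)
      · exact Or.inl (if_neg hj)
    inf_le_right := by
      intro s t i
      change (if ∀ k ≤ i, s.v k = t.v k then s.v i else none) = none ∨
        (if ∀ k ≤ i, s.v k = t.v k then s.v i else none) = t.v i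
      by_cases hj : ∀ k ≤ i, s.v k = t.v k
      · exact Or.inr ((if_pos hj).trans (hj i le_rfl))
      · exact Or.inl (if_neg hj)
    le_inf := by
      intro u s t h1 h2 i
      change u.v i = none ∨ u.v i = (if ∀ k ≤ i, s.v k = t.v k then s.v i else none)
      by_cases hu : u.v i = none
      · exact Or.inl hu
      · right
        have hk : ∀ k ≤ i, s.v k = t.v k := by
          intro k hk
          have hn := u.low k i hk hu
          rw [← (h1 k).resolve_left hn, ← (h2 k).resolve_left hn]
        rw [if_pos hk]
        exact (h1 i).resolve_left hu }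

/-- The level of a node. -/
noncomputable def level [WellFoundedLT W] (s : Nd W) : WithTop W := by
  classical
  exact if h : ∃ i, s.v i = none then
    ((WellFounded.min (wellFounded_lt (α := W)) {i | s.v i = none} h : W) : WithTop W) else ⊤

theorem level_trunc [WellFoundedLT W] (f : W → Bool) (j : W) : level (trunc f j) = (j : WithTop W) := by
  classical
  have h : ∃ i, (trunc f j).v i = none := ⟨j, by simp [trunc]⟩
  rw [level, dif_pos h]
  congr 1
  apply le_antisymm
  · exact WellFounded.min_le (wellFounded_lt (α := W)) (s := {i | (trunc f j).v i = none})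
      (by simp [trunc])
  · have h1 : (trunc f j).v (WellFounded.min (wellFounded_lt (α := W))
        {i | (trunc f j).v i = none} h) = none :=
      WellFounded.min_mem (wellFounded_lt (α := W)) {i | (trunc f j).v i = none} h
    by_contra hc
    exact trunc_v_ne.2 (not_le.1 hc) h1

theorem level_full [WellFoundedLT W] (f : W → Bool) : level (full f) = ⊤ := by
  classical
  have h : ¬ ∃ i, (full f).v i = none := by simp [full]
  rw [level, dif_neg h]

theorem level_strictMono [WellFoundedLT W] {s t : Nd W} (h : s < t) : level s < level t := by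
  rcases node_cases s with ⟨g, rfl⟩ | ⟨g, j, rfl⟩
  · exfalso
    refine h.not_ge ?_
    intro i
    right
    have := h.le i
    simp only [full, reduceCtorEq, false_or] at this ⊢
    exact this.symm
  · rw [level_trunc]
    rcases node_cases t with ⟨g', rfl⟩ | ⟨g', j', rfl⟩
    · rw [level_full]
      exact WithTop.coe_lt_top j
    · rw [level_trunc, WithTop.coe_lt_coe]
      by_contra hc
      have hj : j' ≤ j := not_lt.1 hc
      refine h.not_ge ?_
      intro i
      by_cases hi : i < j'
      · right
        have h1 := (h.le i).resolve_left (trunc_v_ne.2 (hi.trans_le hj))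
        exact h1.symm
      · left
        simp [trunc, hi]

instance [WellFoundedLT W] : WellFoundedLT (Nd W) :=
  ⟨Subrelation.wf (fun {_ _} h => level_strictMono h)
    (InvImage.wf level (wellFounded_lt (α := WithTop W)))⟩

/-- the indicator function of the initial segment `{s | s ≤ t}` -/
noncomputable def chi (t : Nd W) : Nd W → ℝ := by
  classical
  exact fun s => if s ≤ t then 1 else 0

theorem chi_of_le {s t : Nd W} (h : s ≤ t) : chi t s = 1 := by
  classical
  simp [chi, h]

theorem chi_of_not_le {s t : Nd W} (h : ¬ s ≤ t) : chi t s = 0 := by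
  classical
  simp [chi, h]

theorem chi_mul (s t : Nd W) : chi s * chi t = chi (s ⊓ t) := by
  funext u
  by_cases h1 : u ≤ s
  · by_cases h2 : u ≤ t
    · rw [Pi.mul_apply, chi_of_le h1, chi_of_le h2, chi_of_le (le_inf h1 h2), one_mul]
    · rw [Pi.mul_apply, chi_of_not_le h2, chi_of_not_le (fun h => h2 (h.trans inf_le_right)),
        mul_zero]
  · rw [Pi.mul_apply, chi_of_not_le h1, chi_of_not_le (fun h => h1 (h.trans inf_le_left)),
      zero_mul]

/-- the span of the indicator functions of initial segments -/
noncomputable def Yh (W : Type) [LinearOrder W] : Submodule ℝ (Nd W → ℝ) :=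
  Submodule.span ℝ (range chi)

theorem chi_mem (t : Nd W) : chi t ∈ Yh W := Submodule.subset_span ⟨t, rfl⟩

theorem mul_chi_mem {φ : Nd W → ℝ} (hφ : φ ∈ Yh W) (t : Nd W) : φ * chi t ∈ Yh W := by
  induction hφ using Submodule.span_induction with
  | mem x hx =>
    obtain ⟨s, rfl⟩ := hx
    rw [chi_mul]
    exact chi_mem _
  | zero => rw [zero_mul]; exact Submodule.zero_mem _
  | add x y _ _ hx hy => rw [add_mul]; exact Submodule.add_mem _ hx hy
  | smul a x _ hx => rw [smul_mul_assoc]; exact Submodule.smul_mem _ a hx

/-- For each `φ` there is a finite set `T` such that `φ s` depends only on `{t ∈ T | s ≤ t}`, and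
`φ s = 0` if this set is empty. -/
theorem exists_finset {φ : Nd W → ℝ} (hφ : φ ∈ Yh W) : ∃ T : Finset (Nd W),
    (∀ s s', (∀ t ∈ T, (s ≤ t ↔ s' ≤ t)) → φ s = φ s') ∧
    ∀ s, (∀ t ∈ T, ¬ s ≤ t) → φ s = 0 := by
  classical
  induction hφ using Submodule.span_induction with
  | mem x hx =>
    obtain ⟨t, rfl⟩ := hx
    refine ⟨{t}, fun s s' h => ?_, fun s h => chi_of_not_le (h t (Finset.mem_singleton_self t))⟩
    have h1 := h t (Finset.mem_singleton_self t)
    by_cases hs : s ≤ t
    · rw [chi_of_le hs, chi_of_le (h1.1 hs)]
    · rw [chi_of_not_le hs, chi_of_not_le (fun h => hs (h1.2 h))]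
  | zero => exact ⟨∅, fun _ _ _ => rfl, fun _ _ => rfl⟩
  | add x y _ _ hx hy =>
    obtain ⟨T1, h1, h1'⟩ := hx
    obtain ⟨T2, h2, h2'⟩ := hy
    refine ⟨T1 ∪ T2, fun s s' h => ?_, fun s h => ?_⟩
    · rw [Pi.add_apply, Pi.add_apply, h1 s s' fun t ht => h t (Finset.mem_union_left _ ht),
        h2 s s' fun t ht => h t (Finset.mem_union_right _ ht)]
    · rw [Pi.add_apply, h1' s fun t ht => h t (Finset.mem_union_left _ ht),
        h2' s fun t ht => h t (Finset.mem_union_right _ ht), add_zero]
  | smul a x _ hx =>
    obtain ⟨T, h, h'⟩ := hx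
    refine ⟨T, fun s s' hs => ?_, fun s hs => ?_⟩
    · rw [Pi.smul_apply, Pi.smul_apply, h s s' hs]
    · rw [Pi.smul_apply, h' s hs, smul_zero]

/-- extension by zero to the point at infinity `none` -/
def ext (φ : Nd W → ℝ) : Option (Nd W) → ℝ := fun o => o.elim 0 φ

@[simp] theorem ext_none (φ : Nd W → ℝ) : ext φ none = 0 := rfl
@[simp] theorem ext_some (φ : Nd W → ℝ) (s : Nd W) : ext φ (some s) = φ s := rfl

/-- `{some s | s ≤ t}` -/
def Seg (t : Nd W) : Set (Option (Nd W)) := {o | ∃ s, o = some s ∧ s ≤ t}

/-- Compactness of `Option (Nd W)`. -/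
theorem exists_limit [WellFoundedLT W] (U : Ultrafilter (Option (Nd W))) :
    ∃ o : Option (Nd W), (∀ φ ∈ Yh W, ∀ᶠ p in (U : Filter (Option (Nd W))), ext φ p = ext φ o) ∧
      ∀ t, o = some t → Seg t ∈ U := by
  classical
  by_cases hK : ∃ t, Seg t ∈ U
  · obtain ⟨m, hm, hmin⟩ := WellFounded.has_min (wellFounded_lt (α := Nd W)) {t | Seg t ∈ U} hK
    have hle : ∀ t, Seg t ∈ U → m ≤ t := by
      intro t ht
      have h1 : Seg (m ⊓ t) ∈ U := by
        filter_upwards [hm, ht]
        rintro o ⟨s, rfl, hs⟩ ⟨s', hs', hs''⟩
        obtain rfl := Option.some_injective _ hs'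
        exact ⟨s, rfl, le_inf hs hs''⟩
      have h2 := hmin _ h1
      have h3 : m ⊓ t = m := by
        by_contra hne
        exact h2 (lt_of_le_of_ne inf_le_left hne)
      exact inf_eq_left.1 h3
    refine ⟨some m, ?_, fun t ht => by obtain rfl := Option.some_injective _ ht; exact hm⟩
    intro φ hφ
    induction hφ using Submodule.span_induction with
    | mem x hx =>
      obtain ⟨t, rfl⟩ := hx
      by_cases ht : m ≤ t
      · filter_upwards [hm]
        rintro o ⟨s, rfl, hs⟩
        rw [ext_some, ext_some, chi_of_le (hs.trans ht), chi_of_le ht]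
      · have h1 : (Seg t)ᶜ ∈ U := by
          rw [Ultrafilter.compl_mem_iff_notMem]
          exact fun h => ht (hle t h)
        filter_upwards [h1]
        intro o ho
        cases o with
        | none => rw [ext_none, ext_some, chi_of_not_le ht]
        | some s =>
          rw [ext_some, ext_some, chi_of_not_le ht, chi_of_not_le]
          exact fun h => ho ⟨s, rfl, h⟩
    | zero => exact Eventually.of_forall fun p => by cases p <;> rfl
    | add x y _ _ hx hy =>
      filter_upwards [hx, hy]
      intro p h1 h2
      cases p with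
      | none =>
        simp only [ext_none, ext_some, Pi.add_apply] at h1 h2 ⊢
        rw [← h1, ← h2, add_zero]
      | some s =>
        simp only [ext_some, Pi.add_apply] at h1 h2 ⊢
        rw [h1, h2]
    | smul a x _ hx =>
      filter_upwards [hx]
      intro p h1
      cases p with
      | none =>
        simp only [ext_none, ext_some, Pi.smul_apply] at h1 ⊢
        rw [← h1, smul_zero]
      | some s =>
        simp only [ext_some, Pi.smul_apply] at h1 ⊢
        rw [h1]
  · push Not at hK
    refine ⟨none, ?_, fun t ht => by simp at ht⟩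
    intro φ hφ
    induction hφ using Submodule.span_induction with
    | mem x hx =>
      obtain ⟨t, rfl⟩ := hx
      have h1 : (Seg t)ᶜ ∈ U := by
        rw [Ultrafilter.compl_mem_iff_notMem]
        exact hK t
      filter_upwards [h1]
      intro o ho
      cases o with
      | none => rfl
      | some s =>
        rw [ext_some, ext_none, chi_of_not_le]
        exact fun h => ho ⟨s, rfl, h⟩
    | zero => exact Eventually.of_forall fun p => by cases p <;> rfl
    | add x y _ _ hx hy =>
      filter_upwards [hx, hy]
      intro p h1 h2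
      cases p with
      | none => rfl
      | some s =>
        simp only [ext_none, ext_some, Pi.add_apply] at h1 h2 ⊢
        rw [h1, h2, add_zero]
    | smul a x _ hx =>
      filter_upwards [hx]
      intro p h1
      cases p with
      | none => rfl
      | some s =>
        simp only [ext_none, ext_some, Pi.smul_apply] at h1 ⊢
        rw [h1, smul_zero]

end Pool.Agent.H110.PG
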