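import Pool.Agent.H110.PG.A3

/-!
# Projectional generators; the space `ℓ₁` of the tree
-/

set_option autoImplicit false

open Set Filter Topology
open scoped ENNReal

namespace Pool.Agent.H110.PG

section general

variable {X : Type*} [NormedAddCommGroup X] [NormedSpace ℝ X]

/-- The weak* closure of a set of functionals. -/
def wsClosure (A : Set (StrongDual ℝ X)) : Set (StrongDual ℝ X) :=
  {f | StrongDual.toWeakDual f ∈ closure (StrongDual.toWeakDual '' A)}

/-- The annihilator in the dual space of a set of vectors. -/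
def ann (S : Set X) : Set (StrongDual ℝ X) := {f | ∀ x ∈ S, f x = 0}

/-- `D` is a norming subspace of the dual space. -/
def Norming (D : Submodule ℝ (StrongDual ℝ X)) : Prop :=
  ∃ c > 0, ∀ x : X, c * ‖x‖ ≤ ⨆ f : {f : StrongDual ℝ X // f ∈ D ∧ ‖f‖ ≤ 1}, |f.1 x|

/-- `Φ(A)`, the union of the sets `Φ f`, `f ∈ A`. -/
def img (Φ : StrongDual ℝ X → Set X) (A : Set (StrongDual ℝ X)) : Set X := ⋃ f ∈ A, Φ f

/-- `(D, Φ)` is a projectional generator. -/
structure IsPG (D : Submodule ℝ (StrongDual ℝ X)) (Φ : StrongDual ℝ X → Set X) : Prop where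
  norming : Norming D
  countable : ∀ f ∈ D, (Φ f).Countable
  gen : ∀ A : Set (StrongDual ℝ X), A ⊆ D →
    (∃ L : Submodule ℝ (StrongDual ℝ X), closure A = L) → ann (img Φ A) ∩ wsClosure A = {0}

/-- Evaluations are weak* continuous. -/
theorem continuous_eval (x : X) : Continuous fun f : WeakDual ℝ X => f x :=
  WeakDual.eval_continuous x

theorem wsClosure_subset {A : Set (StrongDual ℝ X)} {S : Set (WeakDual ℝ X)} (hS : IsClosed S)
    (hA : ∀ f ∈ A, StrongDual.toWeakDual f ∈ S) {f : StrongDual ℝ X} (hf : f ∈ wsClosure A) :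
    StrongDual.toWeakDual f ∈ S := by
  refine closure_minimal ?_ hS hf
  rintro _ ⟨g, hg, rfl⟩
  exact hA g hg

end general

variable {W : Type} [LinearOrder W]

/-- `ℓ₁` of the tree -/
abbrev L1 (W : Type) [LinearOrder W] := lp (fun _ : Nd W => ℝ) 1

open scoped Classical in
/-- the unit vectors of `ℓ₁` -/
noncomputable def dl (s : Nd W) : L1 W := lp.single 1 s (1 : ℝ)

theorem norm_dl (s : Nd W) : ‖dl s‖ = 1 := by
  classical
  rw [dl, lp.norm_single (by norm_num)]
  simp

theorem dl_self (s : Nd W) : (dl s : Nd W → ℝ) s = 1 := by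
  classical
  rw [dl, lp.single_apply_self]

theorem dl_ne {s t : Nd W} (h : t ≠ s) : (dl s : Nd W → ℝ) t = 0 := by
  classical
  rw [dl, lp.single_apply_ne (hij := h)]

theorem hasSum_norm_L1 (x : L1 W) : HasSum (fun s => |x s|) ‖x‖ := by
  have h := lp.hasSum_norm (p := 1) (by simp) x
  simpa using h

theorem hasSum_L1 (f : StrongDual ℝ (L1 W)) (x : L1 W) :
    HasSum (fun s => x s * f (dl s)) (f x) := by
  classical
  have h1 := lp.hasSum_single (p := 1) (E := fun _ : Nd W => ℝ) (by simp) x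
  have h2 := f.hasSum h1
  convert! h2 using 2 with s
  have h3 : lp.single 1 s (x s) = (x s) • dl s := by
    rw [dl, ← lp.single_smul]
    congr 1
    simp
  rw [h3, map_smul, smul_eq_mul]

/-- the values of a functional on the unit vectors -/
noncomputable def ev (W : Type) [LinearOrder W] : StrongDual ℝ (L1 W) →ₗ[ℝ] (Nd W → ℝ) where
  toFun f s := f (dl s)
  map_add' f g := by funext s; simp
  map_smul' a f := by funext s; simp

theorem ev_apply (f : StrongDual ℝ (L1 W)) (s : Nd W) : ev W f s = f (dl s) := rfl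

theorem ev_le (f : StrongDual ℝ (L1 W)) (s : Nd W) : |ev W f s| ≤ ‖f‖ := by
  have := f.le_opNorm (dl s)
  rwa [norm_dl, mul_one, Real.norm_eq_abs] at this

theorem eq_zero_of_ev {f : StrongDual ℝ (L1 W)} (h : ∀ s, ev W f s = 0) : f = 0 := by
  ext x
  have h1 := hasSum_L1 f x
  have h2 : (fun s => x s * f (dl s)) = fun _ => 0 := by
    funext s
    have := h s
    rw [ev_apply] at this
    rw [this, mul_zero]
  rw [h2] at h1
  simpa using h1.unique hasSum_zero

theorem summable_mul {φ : Nd W → ℝ} {C : ℝ} (h : ∀ s, |φ s| ≤ C) (x : L1 W) :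
    Summable fun s => x s * φ s := by
  refine Summable.of_norm_bounded ((hasSum_norm_L1 x).summable.mul_right C) fun s => ?_
  rw [Real.norm_eq_abs, abs_mul]
  exact mul_le_mul_of_nonneg_left (h s) (abs_nonneg _)

/-- the functional with given bounded values on the unit vectors -/
noncomputable def mk (φ : Nd W → ℝ) (C : ℝ) (h : ∀ s, |φ s| ≤ C) : StrongDual ℝ (L1 W) :=
  LinearMap.mkContinuous
    { toFun := fun x => ∑' s, x s * φ s
      map_add' := fun x y => by
        rw [← (summable_mul h x).tsum_add (summable_mul h y)]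
        congr 1
        funext s
        rw [← add_mul]
        rfl
      map_smul' := fun a x => by
        rw [RingHom.id_apply, smul_eq_mul, ← tsum_mul_left]
        congr 1
        funext s
        rw [← mul_assoc]
        rfl } C (by
    intro x
    change ‖∑' s, x s * φ s‖ ≤ C * ‖x‖
    have h1 : ∀ s, ‖x s * φ s‖ ≤ C * |x s| := by
      intro s
      rw [Real.norm_eq_abs, abs_mul, mul_comm]
      exact mul_le_mul_of_nonneg_right (h s) (abs_nonneg _)
    exact tsum_of_norm_bounded ((hasSum_norm_L1 x).mul_left C) h1)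

theorem mk_apply (φ : Nd W → ℝ) (C : ℝ) (h : ∀ s, |φ s| ≤ C) (x : L1 W) :
    mk φ C h x = ∑' s, x s * φ s := rfl

theorem ev_mk (φ : Nd W → ℝ) (C : ℝ) (h : ∀ s, |φ s| ≤ C) : ev W (mk φ C h) = φ := by
  funext s
  rw [ev_apply, mk_apply, tsum_eq_single s]
  · rw [dl_self, one_mul]
  · intro t ht
    rw [dl_ne ht, zero_mul]

theorem norm_mk (φ : Nd W → ℝ) (C : ℝ) (h : ∀ s, |φ s| ≤ C) (hC : 0 ≤ C) : ‖mk φ C h‖ ≤ C :=
  LinearMap.mkContinuous_norm_le _ hC _

/-- the functionals on `ℓ₁` given by the finite linear combinations of the indicator functions of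
initial segments of the tree -/
noncomputable def Y (W : Type) [LinearOrder W] : Submodule ℝ (StrongDual ℝ (L1 W)) :=
  (Yh W).comap (ev W)

theorem mem_Y {f : StrongDual ℝ (L1 W)} : f ∈ Y W ↔ ev W f ∈ Yh W := Iff.rfl

theorem region_mem (t : Nd W) (S : Finset (Nd W)) : ∃ r ∈ Yh W, ∀ s,
    ((s ≤ t ∧ ∀ t' ∈ S, ¬ s ≤ t') → r s = 1) ∧ (¬ (s ≤ t ∧ ∀ t' ∈ S, ¬ s ≤ t') → r s = 0) := by
  classical
  induction S using Finset.induction_on with
  | empty =>
    refine ⟨chi t, chi_mem t, fun s => ⟨fun h => chi_of_le h.1, fun h => chi_of_not_le ?_⟩⟩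
    exact fun h' => h ⟨h', by simp⟩
  | insert a S _ ih =>
    obtain ⟨r, hr, hr'⟩ := ih
    refine ⟨r - r * chi a, Submodule.sub_mem _ hr (mul_chi_mem hr a), fun s => ⟨?_, ?_⟩⟩
    · rintro ⟨h1, h2⟩
      rw [Pi.sub_apply, Pi.mul_apply, chi_of_not_le (h2 a (Finset.mem_insert_self _ _)),
        (hr' s).1 ⟨h1, fun t' ht' => h2 t' (Finset.mem_insert_of_mem ht')⟩]
      norm_num
    · intro h
      by_cases h1 : s ≤ t ∧ ∀ t' ∈ S, ¬ s ≤ t'
      · have h2 : s ≤ a := by
          by_contra hc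
          apply h
          refine ⟨h1.1, fun t' ht' => ?_⟩
          rcases Finset.mem_insert.1 ht' with rfl | h'
          · exact hc
          · exact h1.2 t' h'
        rw [Pi.sub_apply, Pi.mul_apply, chi_of_le h2, mul_one, sub_self]
      · rw [Pi.sub_apply, Pi.mul_apply, (hr' s).2 h1]
        norm_num

theorem norming_aux (x : L1 W) (ε : ℝ) (hε : 0 < ε) :
    ∃ f ∈ Y W, ‖f‖ ≤ 1 ∧ ‖x‖ - ε ≤ f x := by
  classical
  have hs := hasSum_norm_L1 x
  obtain ⟨F, hF⟩ := (hs.eventually (lt_mem_nhds (show ‖x‖ - ε / 2 < ‖x‖ by linarith))).exists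
  have hr : ∀ t : Nd W, ∃ r ∈ Yh W, ∀ s,
      ((s ≤ t ∧ ∀ t' ∈ F.filter (fun t' => ¬ t ≤ t'), ¬ s ≤ t') → r s = 1) ∧
      (¬ (s ≤ t ∧ ∀ t' ∈ F.filter (fun t' => ¬ t ≤ t'), ¬ s ≤ t') → r s = 0) :=
    fun t => region_mem t _
  choose r hr1 hr2 using hr
  have hself : ∀ t ∈ F, r t t = 1 := by
    intro t _
    refine (hr2 t t).1 ⟨le_rfl, fun t' ht' => (Finset.mem_filter.1 ht').2⟩
  have hdisj : ∀ s, ∀ t ∈ F, ∀ t' ∈ F, r t s ≠ 0 → r t' s ≠ 0 → t = t' := by
    intro s t ht t' ht' h h'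
    have h1 : s ≤ t ∧ ∀ u ∈ F.filter (fun u => ¬ t ≤ u), ¬ s ≤ u := by
      by_contra hc
      exact h ((hr2 t s).2 hc)
    have h2 : s ≤ t' ∧ ∀ u ∈ F.filter (fun u => ¬ t' ≤ u), ¬ s ≤ u := by
      by_contra hc
      exact h' ((hr2 t' s).2 hc)
    apply le_antisymm
    · by_contra hc
      exact h1.2 t' (Finset.mem_filter.2 ⟨ht', hc⟩) h2.1
    · by_contra hc
      exact h2.2 t (Finset.mem_filter.2 ⟨ht, hc⟩) h1.1
  have h01 : ∀ t s, |r t s| ≤ 1 := by
    intro t s
    by_cases h : s ≤ t ∧ ∀ t' ∈ F.filter (fun t' => ¬ t ≤ t'), ¬ s ≤ t'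
    · rw [(hr2 t s).1 h]; norm_num
    · rw [(hr2 t s).2 h]; norm_num
  let sg : ℝ → ℝ := fun a => if 0 ≤ a then 1 else -1
  have hsg : ∀ a, |sg a| = 1 := by
    intro a
    by_cases h : 0 ≤ a <;> simp [sg, h]
  have hsg2 : ∀ a, a * sg a = |a| := by
    intro a
    by_cases h : 0 ≤ a
    · simp [sg, h, abs_of_nonneg h]
    · simp [sg, h, abs_of_neg (not_le.1 h)]
  let g : Nd W → ℝ := ∑ t ∈ F, sg (x t) • r t
  have hgval : ∀ s, g s = ∑ t ∈ F, sg (x t) * r t s := by
    intro s
    simp [g]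
  have hg1 : ∀ s, |g s| ≤ 1 := by
    intro s
    rw [hgval]
    by_cases h : ∃ t ∈ F, r t s ≠ 0
    · obtain ⟨t, ht, hts⟩ := h
      rw [Finset.sum_eq_single t]
      · rw [abs_mul, hsg, one_mul]
        exact h01 t s
      · intro t' ht' hne
        by_contra hc
        exact hne (hdisj s t' ht' t ht (fun h0 => hc (by rw [h0, mul_zero])) hts)
      · intro h; exact absurd ht h
    · push Not at h
      rw [Finset.sum_eq_zero fun t ht => by rw [h t ht, mul_zero]]
      norm_num
  have hg2 : ∀ t ∈ F, g t = sg (x t) := by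
    intro t ht
    rw [hgval, Finset.sum_eq_single t]
    · rw [hself t ht, mul_one]
    · intro t' ht' hne
      by_contra hc
      exact hne (hdisj t t' ht' t ht (fun h0 => hc (by rw [h0, mul_zero]))
        (by rw [hself t ht]; norm_num))
    · intro h; exact absurd ht h
  have hgY : g ∈ Yh W := Submodule.sum_mem _ fun t _ => Submodule.smul_mem _ _ (hr1 t)
  refine ⟨mk g 1 hg1, ?_, norm_mk g 1 hg1 zero_le_one, ?_⟩
  · rw [mem_Y, ev_mk]; exact hgY
  · rw [mk_apply]
    have h1 : ∀ s, |x s| - 2 * (if s ∈ F then 0 else |x s|) ≤ x s * g s := by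
      intro s
      by_cases hsF : s ∈ F
      · rw [if_pos hsF, hg2 s hsF, hsg2]
        linarith
      · rw [if_neg hsF]
        have h2 : |x s * g s| ≤ |x s| := by
          rw [abs_mul]
          exact mul_le_of_le_one_right (abs_nonneg _) (hg1 s)
        have h3 := neg_abs_le (x s * g s)
        linarith
    have hF1 : HasSum (fun s => if s ∈ F then |x s| else 0) (∑ s ∈ F, |x s|) := by
      have : ∀ s ∉ F, (if s ∈ F then |x s| else 0) = 0 := fun s hs => if_neg hs
      have h4 : HasSum (fun s => if s ∈ F then |x s| else 0)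
          (∑ s ∈ F, (if s ∈ F then |x s| else 0)) := hasSum_sum_of_ne_finset_zero this
      have h5 : ∑ s ∈ F, (if s ∈ F then |x s| else 0) = ∑ s ∈ F, |x s| :=
        Finset.sum_congr rfl fun s hs => if_pos hs
      rwa [h5] at h4
    have hF2 : HasSum (fun s => if s ∈ F then 0 else |x s|) (‖x‖ - ∑ s ∈ F, |x s|) := by
      have := hs.sub hF1
      convert! this using 2 with s
      by_cases hsF : s ∈ F <;> simp [hsF]
    have h6 := (hs.sub (hF2.mul_left 2))
    have h7 := hasSum_le h1 h6 (summable_mul hg1 x).hasSum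
    linarith

theorem norming_of_le {D : Submodule ℝ (StrongDual ℝ (L1 W))} (hD : Y W ≤ D) : Norming D := by
  refine ⟨1 / 2, by norm_num, fun x => ?_⟩
  have hbdd : BddAbove (range fun f : {f : StrongDual ℝ (L1 W) // f ∈ D ∧ ‖f‖ ≤ 1} => |f.1 x|) := by
    refine ⟨‖x‖, ?_⟩
    rintro _ ⟨f, rfl⟩
    have := f.1.le_opNorm x
    rw [Real.norm_eq_abs] at this
    exact this.trans (mul_le_of_le_one_left (norm_nonneg _) f.2.2)
  by_cases hx : x = 0
  · subst hx
    rw [norm_zero, mul_zero]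
    refine le_ciSup_of_le hbdd ⟨0, Submodule.zero_mem _, by simp⟩ ?_
    exact abs_nonneg _
  · have hx' : 0 < ‖x‖ := norm_pos_iff.2 hx
    obtain ⟨f, hf, hf1, hf2⟩ := norming_aux x (‖x‖ / 2) (by linarith)
    refine le_ciSup_of_le hbdd ⟨f, hD hf, hf1⟩ ?_
    have := le_abs_self (f x)
    change 1 / 2 * ‖x‖ ≤ |f x|
    linarith

end Pool.Agent.H110.PG
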