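import Pool.Agent.H110.PG.A4

/-!
# The projectional generator
-/

set_option autoImplicit false

open Set Filter Topology

namespace Pool.Agent.H110.PG

variable {W : Type} [LinearOrder W]

theorem approx {F : StrongDual ℝ (L1 W)} (hF : F ∈ (Y W).topologicalClosure) {ε : ℝ} (hε : 0 < ε) :
    ∃ G ∈ Y W, ‖F - G‖ < ε := by
  have h : F ∈ closure (Y W : Set (StrongDual ℝ (L1 W))) := hF
  obtain ⟨G, hG, hFG⟩ := Metric.mem_closure_iff.1 h ε hε
  exact ⟨G, hG, by rwa [dist_eq_norm] at hFG⟩

/-- the value at a point of the tree or at infinity -/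
noncomputable def val (F : StrongDual ℝ (L1 W)) (o : Option (Nd W)) : ℝ := ext (ev W F) o

@[simp] theorem val_none (F : StrongDual ℝ (L1 W)) : val F none = 0 := rfl
@[simp] theorem val_some (F : StrongDual ℝ (L1 W)) (s : Nd W) : val F (some s) = F (dl s) := rfl

theorem val_add (F G : StrongDual ℝ (L1 W)) (o : Option (Nd W)) :
    val (F + G) o = val F o + val G o := by
  cases o <;> simp

theorem val_smul (a : ℝ) (F : StrongDual ℝ (L1 W)) (o : Option (Nd W)) :
    val (a • F) o = a * val F o := by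
  cases o <;> simp

theorem val_sub (F G : StrongDual ℝ (L1 W)) (o : Option (Nd W)) :
    val (F - G) o = val F o - val G o := by
  cases o <;> simp

theorem val_le (F : StrongDual ℝ (L1 W)) (o : Option (Nd W)) : |val F o| ≤ ‖F‖ := by
  cases o with
  | none => simp
  | some s => exact ev_le F s

theorem val_sub_le (F G : StrongDual ℝ (L1 W)) (o : Option (Nd W)) :
    |val F o - val G o| ≤ ‖F - G‖ := by
  rw [← val_sub]
  exact val_le _ _

theorem limit [WellFoundedLT W] (U : Ultrafilter (Option (Nd W))) :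
    ∃ o : Option (Nd W), (∀ F ∈ (Y W).topologicalClosure,
      Tendsto (val F) (U : Filter (Option (Nd W))) (𝓝 (val F o))) ∧
      ∀ t, o = some t → Seg t ∈ U := by
  obtain ⟨o, h1, h2⟩ := exists_limit U
  refine ⟨o, ?_, h2⟩
  intro F hF
  rw [Metric.tendsto_nhds]
  intro ε hε
  obtain ⟨G, hG, hFG⟩ := approx hF (show 0 < ε / 2 by linarith)
  filter_upwards [h1 _ (mem_Y.1 hG)]
  intro p hp
  have e1 := val_sub_le F G p
  have e2 := val_sub_le F G o
  have hp' : val G p = val G o := hp
  rw [Real.dist_eq]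
  calc |val F p - val F o| = |(val F p - val G p) - (val F o - val G o)| := by rw [hp']; ring_nf
    _ ≤ |val F p - val G p| + |val F o - val G o| := abs_sub _ _
    _ < ε := by linarith

theorem countable_support [WellFoundedLT W] {F : StrongDual ℝ (L1 W)}
    (hF : F ∈ (Y W).topologicalClosure) :
    ∃ E : Set (Nd W), E.Countable ∧ ∀ s, F (dl s) ≠ 0 → ∃ s' ∈ E, s ≤ s' ∧ F (dl s') = F (dl s) := by
  classical
  have h1 : ∀ n : ℕ, ∃ G ∈ Y W, ‖F - G‖ < 1 / ((n : ℝ) + 1) := fun n =>
    approx hF (by positivity)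
  choose G hG hGF using h1
  have h2 : ∀ n : ℕ, ∃ T : Finset (Nd W),
      (∀ s s', (∀ t ∈ T, (s ≤ t ↔ s' ≤ t)) → ev W (G n) s = ev W (G n) s') ∧
      ∀ s, (∀ t ∈ T, ¬ s ≤ t) → ev W (G n) s = 0 := fun n => exists_finset (mem_Y.1 (hG n))
  choose T hT1 hT2 using h2
  let TT : Set (Nd W) := ⋃ n, (T n : Set (Nd W))
  have hTT : TT.Countable := countable_iUnion fun n => (T n).countable_toSet
  have hsmall : ∀ a : ℝ, (∀ n : ℕ, |a| ≤ 2 * (1 / ((n : ℝ) + 1))) → a = 0 := by
    intro a ha
    by_contra hne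
    have hpos : 0 < |a| / 2 := by positivity
    obtain ⟨n, hn⟩ := exists_nat_one_div_lt hpos
    have := ha n
    linarith
  have key : ∀ s s', (∀ t ∈ TT, (s ≤ t ↔ s' ≤ t)) → F (dl s) = F (dl s') := by
    intro s s' h
    have : F (dl s) - F (dl s') = 0 := by
      apply hsmall
      intro n
      have e := hT1 n s s' fun t ht => h t (mem_iUnion.2 ⟨n, ht⟩)
      rw [ev_apply, ev_apply] at e
      have e1 := val_sub_le F (G n) (some s)
      have e2 := val_sub_le F (G n) (some s')
      rw [val_some, val_some] at e1 e2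
      have e3 := (hGF n).le
      calc |F (dl s) - F (dl s')|
          = |(F (dl s) - G n (dl s)) - (F (dl s') - G n (dl s'))| := by rw [e]; ring_nf
        _ ≤ |F (dl s) - G n (dl s)| + |F (dl s') - G n (dl s')| := abs_sub _ _
        _ ≤ 2 * (1 / ((n : ℝ) + 1)) := by linarith
    linarith
  have key0 : ∀ s, (∀ t ∈ TT, ¬ s ≤ t) → F (dl s) = 0 := by
    intro s h
    apply hsmall
    intro n
    have e := hT2 n s fun t ht => h t (mem_iUnion.2 ⟨n, ht⟩)
    rw [ev_apply] at e
    have e1 := val_sub_le F (G n) (some s)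
    rw [val_some, val_some, e, sub_zero] at e1
    have e3 := (hGF n).le
    have : (0 : ℝ) ≤ 1 / ((n : ℝ) + 1) := by positivity
    linarith
  let E : Set (Nd W) := {e | ∃ (S : Finset (Nd W)) (hS : S.Nonempty), (S : Set (Nd W)) ⊆ TT ∧
    e = S.inf' hS id}
  have hE : E.Countable := by
    have hc : {S : Finset (Nd W) | (S : Set (Nd W)) ⊆ TT}.Countable := by
      have h3 := (Set.countable_ofPred_finite_subset hTT).preimage_of_injOn
        (f := fun S : Finset (Nd W) => (S : Set (Nd W))) (Finset.coe_injective.injOn)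
      refine h3.mono ?_
      intro S hS
      exact ⟨S.finite_toSet, hS⟩
    have himg : E ⊆ (fun S : Finset (Nd W) => if hS : S.Nonempty then S.inf' hS id else
        full (fun _ => false)) '' {S : Finset (Nd W) | (S : Set (Nd W)) ⊆ TT} := by
      rintro _ ⟨S, hS, hST, rfl⟩
      exact ⟨S, hST, by simp [hS]⟩
    exact (hc.image _).mono himg
  refine ⟨E, hE, ?_⟩
  intro s hs
  have hex : {e | e ∈ E ∧ s ≤ e}.Nonempty := by
    by_contra hc
    apply hs
    apply key0
    intro t ht hst
    apply hc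
    refine ⟨t, ⟨{t}, Finset.singleton_nonempty t, by simpa using ht, by simp⟩, hst⟩
  obtain ⟨s', ⟨hs'E, hss'⟩, hmin⟩ := WellFounded.has_min (wellFounded_lt (α := Nd W)) _ hex
  refine ⟨s', hs'E, hss', ?_⟩
  apply key
  intro t ht
  constructor
  · intro h
    exact hss'.trans h
  · intro h
    obtain ⟨S, hS, hST, rfl⟩ := hs'E
    have hmem : S.inf' hS id ⊓ t ∈ E := by
      refine ⟨insert t S, Finset.insert_nonempty _ _, ?_, ?_⟩
      · intro u hu
        rcases Finset.mem_insert.1 (Finset.mem_coe.1 hu) with rfl | hu'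
        · exact ht
        · exact hST hu'
      · rw [Finset.inf'_insert hS, inf_comm]
        rfl
    have h3 := hmin _ ⟨hmem, le_inf hss' h⟩
    have h4 : S.inf' hS id ⊓ t = S.inf' hS id := by
      by_contra hne
      exact h3 (lt_of_le_of_ne inf_le_left hne)
    exact inf_eq_left.1 h4

end Pool.Agent.H110.PG
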