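import Pool.Agent.H110.PG.A5

/-!
# The projectional generator: the main argument
-/

set_option autoImplicit false

open Set Filter Topology

namespace Pool.Agent.H110.PG

variable {W : Type} [LinearOrder W] [WellFoundedLT W]

theorem range_countable {F : StrongDual ℝ (L1 W)} (hF : F ∈ (Y W).topologicalClosure) :
    (range (val F)).Countable := by
  obtain ⟨E, hE, h⟩ := countable_support hF
  refine ((hE.image fun s => F (dl s)).union (countable_singleton (0 : ℝ))).mono ?_
  rintro _ ⟨o, rfl⟩
  cases o with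
  | none => exact Or.inr rfl
  | some s =>
    by_cases hs : F (dl s) = 0
    · exact Or.inr hs
    · obtain ⟨s', hs', _, h2⟩ := h s hs
      exact Or.inl ⟨s', hs', h2⟩

/-- A generic combination of two functionals separates a point from the others as well as the two
functionals do. -/
theorem generic {F G : StrongDual ℝ (L1 W)} (hF : F ∈ (Y W).topologicalClosure)
    (hG : G ∈ (Y W).topologicalClosure) (y : Option (Nd W)) :
    ∃ c : ℝ, ∀ o, val (F + c • G) o = val (F + c • G) y → val F o = val F y ∧ val G o = val G y := by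
  have hbad : ((fun p : ℝ × ℝ => -(p.1 - val F y) / (p.2 - val G y)) ''
      (range (val F) ×ˢ range (val G))).Countable :=
    ((range_countable hF).prod (range_countable hG)).image _
  obtain ⟨c, hc⟩ := (hbad.dense_compl ℝ).nonempty
  refine ⟨c, fun o ho => ?_⟩
  rw [val_add, val_add, val_smul, val_smul] at ho
  have hG' : val G o = val G y := by
    by_contra hne
    apply hc
    refine ⟨(val F o, val G o), ⟨⟨o, rfl⟩, ⟨o, rfl⟩⟩, ?_⟩
    have hne' : val G o - val G y ≠ 0 := sub_ne_zero.2 hne
    change -(val F o - val F y) / (val G o - val G y) = c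
    rw [div_eq_iff hne']
    linarith
  rw [hG'] at ho
  exact ⟨by linarith, hG'⟩

omit [WellFoundedLT W] in
theorem lim_above {U : Ultrafilter (Option (Nd W))} {y t : Nd W}
    (hU : {o | ∀ z, o = some z → y < z} ∈ U) (ht : Seg t ∈ U) : y < t := by
  obtain ⟨p, hp1, hp2⟩ := U.nonempty_of_mem (inter_mem hU ht)
  obtain ⟨s, rfl, hs⟩ := hp2
  exact lt_of_lt_of_le (hp1 s rfl) hs

omit [WellFoundedLT W] in
theorem lim_ge {U : Ultrafilter (Option (Nd W))} {y t : Nd W}
    (hU : {o | ∃ z, o = some z ∧ y ≤ z} ∈ U) (ht : Seg t ∈ U) : y ≤ t := by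
  obtain ⟨p, ⟨z, rfl, hz⟩, hp2⟩ := U.nonempty_of_mem (inter_mem hU ht)
  obtain ⟨s, hs1, hs2⟩ := hp2
  obtain rfl := Option.some_injective _ hs1
  exact hz.trans hs2

/-- The main argument. -/
theorem gen_main (A : Set (StrongDual ℝ (L1 W))) (hA : A ⊆ (Y W).topologicalClosure)
    (L : Submodule ℝ (StrongDual ℝ (L1 W))) (hL : closure A = L)
    (Φ : StrongDual ℝ (L1 W) → Set (L1 W))
    (hΦ : ∀ F ∈ A, ∀ s, F (dl s) ≠ 0 → ∃ s', dl s' ∈ Φ F ∧ s ≤ s' ∧ F (dl s') = F (dl s))
    (h : StrongDual ℝ (L1 W)) (h1 : h ∈ ann (img Φ A)) (h2 : h ∈ wsClosure A) : h = 0 := by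
  classical
  have hLD : (L : Set (StrongDual ℝ (L1 W))) ⊆ (Y W).topologicalClosure := by
    rw [← hL]
    exact closure_minimal hA (Y W).isClosed_topologicalClosure
  have hAL : A ⊆ L := by
    rw [← hL]
    exact subset_closure
  apply eq_zero_of_ev
  intro x
  by_contra hx
  rw [ev_apply] at hx
  -- consequences of being in the weak* closure
  have hEq : ∀ y, (∀ F ∈ A, F (dl y) = F (dl x)) → h (dl y) = h (dl x) := by
    intro y hy
    exact wsClosure_subset (S := {f : WeakDual ℝ (L1 W) | f (dl y) = f (dl x)})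
      (isClosed_eq (continuous_eval _) (continuous_eval _)) hy h2
  have hNe : ∃ F ∈ A, F (dl x) ≠ 0 := by
    by_contra hc
    push Not at hc
    apply hx
    exact wsClosure_subset (S := {f : WeakDual ℝ (L1 W) | f (dl x) = 0})
      (isClosed_eq (continuous_eval _) continuous_const) hc h2
  obtain ⟨F0, hF0A, hF0⟩ := hNe
  -- a maximal point of the class of `x`
  obtain ⟨y, hxy, hy⟩ := zorn_le_nonempty₀ {s : Nd W | ∀ F ∈ A, F (dl s) = F (dl x)} (by
    intro c hc hch y0 hy0
    let tl : Nd W → Set (Option (Nd W)) := fun a => {o | ∃ z ∈ c, o = some z ∧ a ≤ z}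
    obtain ⟨U, hU⟩ := Ultrafilter.exists_ultrafilter_of_finite_inter_nonempty (tl '' c) (by
      intro T hT
      have : ∃ a ∈ c, tl a ⊆ ⋂₀ (T : Set (Set (Option (Nd W)))) := by
        induction T using Finset.induction_on with
        | empty => exact ⟨y0, hy0, by simp⟩
        | insert S T _ ih =>
          obtain ⟨a, ha, haT⟩ := ih (fun S' hS' => hT (by
            rw [Finset.coe_insert]; exact mem_insert_of_mem _ hS'))
          obtain ⟨a', ha', hS⟩ := hT (by rw [Finset.coe_insert]; exact mem_insert _ _)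
          rw [Finset.coe_insert, sInter_insert]
          rcases hch.total ha ha' with hle | hle
          · refine ⟨a', ha', subset_inter (by rw [← hS]) (fun o ho => haT ?_)⟩
            obtain ⟨z, hz, rfl, haz⟩ := ho
            exact ⟨z, hz, rfl, hle.trans haz⟩
          · refine ⟨a, ha, subset_inter ?_ haT⟩
            rw [← hS]
            rintro _ ⟨z, hz, rfl, haz⟩
            exact ⟨z, hz, rfl, hle.trans haz⟩
      obtain ⟨a, ha, haT⟩ := this
      exact ⟨some a, haT ⟨a, ha, rfl, le_rfl⟩⟩)
    have hU' : ∀ a ∈ c, tl a ∈ U := fun a ha => hU ⟨a, ha, rfl⟩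
    obtain ⟨o, ho1, ho2⟩ := limit U
    have hval : ∀ F ∈ A, val F o = F (dl x) := by
      intro F hF
      have e1 := ho1 F (hA hF)
      have e2 : Tendsto (val F) (U : Filter (Option (Nd W))) (𝓝 (F (dl x))) := by
        refine tendsto_const_nhds.congr' ?_
        filter_upwards [hU' y0 hy0]
        rintro _ ⟨z, hz, rfl, _⟩
        exact (hc hz F hF).symm
      exact tendsto_nhds_unique e1 e2
    cases o with
    | none =>
      exfalso
      apply hF0
      rw [← hval F0 hF0A, val_none]
    | some t =>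
      refine ⟨t, fun F hF => hval F hF, ?_⟩
      intro z hz
      refine lim_ge (U := U) ?_ (ho2 t rfl)
      filter_upwards [hU' z hz]
      rintro _ ⟨z', _, rfl, hz'⟩
      exact ⟨z', rfl, hz'⟩) x (fun F _ => rfl)
  have hyP : ∀ F ∈ A, F (dl y) = F (dl x) := hy.1
  have hymax : ∀ z, y < z → ¬ ∀ F ∈ A, F (dl z) = F (dl x) := by
    intro z hz hzP
    exact absurd (hy.2 hzP hz.le) (not_le_of_gt hz)
  -- the points above `y`, and infinity
  let Z : Set (Option (Nd W)) := {o | ∀ z, o = some z → y < z}
  have claim : ∃ F ∈ A, ∀ o ∈ Z, val F o ≠ val F (some y) := by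
    by_contra hcon
    push Not at hcon
    -- the same for the closure
    have hK : ∀ K ∈ L, ∃ o ∈ Z, val K o = val K (some y) := by
      intro K hKL
      have hKcl : K ∈ closure A := by rw [hL]; exact hKL
      have e1 : ∀ n : ℕ, ∃ F ∈ A, ‖K - F‖ < 1 / ((n : ℝ) + 1) := by
        intro n
        obtain ⟨F, hF, hKF⟩ := Metric.mem_closure_iff.1 hKcl (1 / ((n : ℝ) + 1)) (by positivity)
        exact ⟨F, hF, by rwa [dist_eq_norm] at hKF⟩
      choose F hFA hKF using e1
      have e2 : ∀ n, ∃ o ∈ Z, val (F n) o = val (F n) (some y) := fun n => hcon (F n) (hFA n)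
      choose o hoZ hov using e2
      let U : Ultrafilter (Option (Nd W)) := (hyperfilter ℕ).map o
      obtain ⟨p, hp1, hp2⟩ := limit U
      refine ⟨p, ?_, ?_⟩
      · intro z hz
        refine lim_above (U := U) ?_ (hp2 z hz)
        change Z ∈ (hyperfilter ℕ).map o
        rw [Ultrafilter.mem_map]
        exact Filter.univ_mem' hoZ
      · have e3 := hp1 K (hLD hKL)
        have e4 : Tendsto (fun n => val K (o n)) (hyperfilter ℕ : Filter ℕ) (𝓝 (val K p)) := e3
        have e5 : Tendsto (fun n => val K (o n)) atTop (𝓝 (val K (some y))) := by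
          rw [tendsto_iff_dist_tendsto_zero]
          have e6 : Tendsto (fun n : ℕ => 2 * (1 / ((n : ℝ) + 1))) atTop (𝓝 0) := by
            have := (tendsto_one_div_add_atTop_nhds_zero_nat (𝕜 := ℝ)).const_mul 2
            simpa using this
          refine squeeze_zero (fun _ => dist_nonneg) (fun n => ?_) e6
          have a1 := val_sub_le K (F n) (o n)
          have a2 := val_sub_le K (F n) (some y)
          have a3 := (hKF n).le
          rw [Real.dist_eq]
          calc |val K (o n) - val K (some y)|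
              = |(val K (o n) - val (F n) (o n)) - (val K (some y) - val (F n) (some y))| := by
                rw [hov n]; ring_nf
            _ ≤ |val K (o n) - val (F n) (o n)| + |val K (some y) - val (F n) (some y)| :=
                abs_sub _ _
            _ ≤ 2 * (1 / ((n : ℝ) + 1)) := by linarith
        have e7 : (hyperfilter ℕ : Filter ℕ) ≤ atTop := by
          rw [← Nat.cofinite_eq_atTop]
          exact hyperfilter_le_cofinite
        exact tendsto_nhds_unique e4 (e5.mono_left e7)
    let C : StrongDual ℝ (L1 W) → Set (Option (Nd W)) :=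
      fun K => Z ∩ {o | val K o = val K (some y)}
    obtain ⟨U, hU⟩ := Ultrafilter.exists_ultrafilter_of_finite_inter_nonempty (C '' L) (by
      intro T hT
      have : ∃ K ∈ L, C K ⊆ ⋂₀ (T : Set (Set (Option (Nd W)))) := by
        induction T using Finset.induction_on with
        | empty => exact ⟨0, L.zero_mem, by simp⟩
        | insert S T _ ih =>
          obtain ⟨K, hKL, hKT⟩ := ih (fun S' hS' => hT (by
            rw [Finset.coe_insert]; exact mem_insert_of_mem _ hS'))
          obtain ⟨K', hK'L, hS⟩ := hT (by rw [Finset.coe_insert]; exact mem_insert _ _)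
          obtain ⟨c, hc⟩ := generic (hLD hKL) (hLD hK'L) (some y)
          refine ⟨K + c • K', L.add_mem hKL (L.smul_mem c hK'L), ?_⟩
          rw [Finset.coe_insert, sInter_insert, ← hS]
          rintro o ⟨hoZ, ho⟩
          obtain ⟨hc1, hc2⟩ := hc o ho
          exact ⟨⟨hoZ, hc2⟩, hKT ⟨hoZ, hc1⟩⟩
      obtain ⟨K, hKL, hKT⟩ := this
      obtain ⟨o, hoZ, ho⟩ := hK K hKL
      exact ⟨o, hKT ⟨hoZ, ho⟩⟩)
    have hCU : ∀ K ∈ L, C K ∈ U := fun K hKL => hU ⟨K, hKL, rfl⟩
    obtain ⟨o, ho1, ho2⟩ := limit U
    have hZU : Z ∈ U := mem_of_superset (hCU 0 L.zero_mem) inter_subset_left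
    have hval : ∀ F ∈ A, val F o = F (dl y) := by
      intro F hF
      have e1 := ho1 F (hA hF)
      have e2 : Tendsto (val F) (U : Filter (Option (Nd W))) (𝓝 (F (dl y))) := by
        refine tendsto_const_nhds.congr' ?_
        filter_upwards [hCU F (hAL hF)]
        intro p hp
        exact hp.2.symm
      exact tendsto_nhds_unique e1 e2
    cases o with
    | none =>
      apply hF0
      rw [← hyP F0 hF0A, ← hval F0 hF0A, val_none]
    | some t =>
      refine hymax t (lim_above hZU (ho2 t rfl)) ?_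
      intro F hF
      rw [← hyP F hF, ← hval F hF, val_some]
  obtain ⟨F, hFA, hF⟩ := claim
  have hFy : F (dl y) ≠ 0 := by
    have := hF none (fun z hz => by simp at hz)
    rw [val_none, val_some] at this
    exact this.symm
  obtain ⟨s', hs'1, hs'2, hs'3⟩ := hΦ F hFA y hFy
  have hys : y = s' := by
    by_contra hne
    refine hF (some s') ?_ ?_
    · intro z hz
      obtain rfl := Option.some_injective _ hz
      exact lt_of_le_of_ne hs'2 hne
    · rw [val_some, val_some, hs'3]
  subst hys
  have h3 : h (dl y) = 0 := h1 (dl y) (mem_iUnion₂.2 ⟨F, hFA, hs'1⟩)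
  apply hx
  rw [← hEq y hyP, h3]

/-- Every subspace between `Y` and its closure is the domain of a projectional generator. -/
theorem exists_PG {D : Submodule ℝ (StrongDual ℝ (L1 W))} (h1 : Y W ≤ D)
    (h2 : D ≤ (Y W).topologicalClosure) : ∃ Φ, IsPG D Φ := by
  classical
  have hE : ∀ F : StrongDual ℝ (L1 W), ∃ E : Set (Nd W), E.Countable ∧
      (F ∈ (Y W).topologicalClosure →
        ∀ s, F (dl s) ≠ 0 → ∃ s' ∈ E, s ≤ s' ∧ F (dl s') = F (dl s)) := by
    intro F
    by_cases hF : F ∈ (Y W).topologicalClosure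
    · obtain ⟨E, hE, h⟩ := countable_support hF
      exact ⟨E, hE, fun _ => h⟩
    · exact ⟨∅, countable_empty, fun h => absurd h hF⟩
  choose E hE1 hE2 using hE
  refine ⟨fun F => dl '' (E F), norming_of_le h1, fun F _ => (hE1 F).image _, ?_⟩
  intro A hA ⟨L, hL⟩
  apply Subset.antisymm
  · rintro h ⟨ha, hb⟩
    refine gen_main A (fun F hF => h2 (hA hF)) L hL (fun F => dl '' (E F)) ?_ h ha hb
    intro F hF s hs
    obtain ⟨s', hs', h3, h4⟩ := hE2 F (h2 (hA hF)) s hs
    exact ⟨s', ⟨s', hs', rfl⟩, h3, h4⟩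
  · rintro _ rfl
    refine ⟨fun x _ => rfl, ?_⟩
    have h0 : (0 : StrongDual ℝ (L1 W)) ∈ closure A := by
      rw [hL]
      exact L.zero_mem
    have := NormedSpace.Dual.toWeakDual_continuous (𝕜 := ℝ) (E := L1 W)
    exact (image_closure_subset_closure_image this) ⟨0, h0, rfl⟩

end Pool.Agent.H110.PG
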