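import Pool.Agent.H110.PG.A6
import Pool.Agent.H110.PG.A2

/-!
# No choice of countable sets satisfies the strengthened condition
-/

set_option autoImplicit false

open Set Filter Topology

namespace Pool.Agent.H110.PG

variable {W : Type} [LinearOrder W]

/-- the indicator function of `{s ≤ full f | s.v i ≠ none}` -/
noncomputable def ph (i : W) (f : W → Bool) : Nd W → ℝ := chi (full f) - chi (trunc f i)

theorem ph_one {i : W} {f : W → Bool} {s : Nd W} (h : s ≤ full f ∧ s.v i ≠ none) :
    ph i f s = 1 := by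
  have h1 : ¬ s ≤ trunc f i := by
    intro hc
    rcases hc i with h' | h'
    · exact h.2 h'
    · apply h.2
      rw [h']
      simp [trunc]
  rw [ph, Pi.sub_apply, chi_of_le h.1, chi_of_not_le h1, sub_zero]

theorem ph_zero {i : W} {f : W → Bool} {s : Nd W} (h : ¬ (s ≤ full f ∧ s.v i ≠ none)) :
    ph i f s = 0 := by
  by_cases h1 : s ≤ full f
  · have h2 : s.v i = none := by
      by_contra hc
      exact h ⟨h1, hc⟩
    have h3 : s ≤ trunc f i := by
      intro k
      by_cases hk : k < i
      · have := h1 k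
        simpa [trunc, full, hk] using this
      · left
        by_contra hc
        exact s.low i k (not_lt.1 hk) hc h2
    rw [ph, Pi.sub_apply, chi_of_le h1, chi_of_le h3, sub_self]
  · have h3 : ¬ s ≤ trunc f i := by
      intro hc
      apply h1
      refine hc.trans ?_
      rw [trunc_le_full]
    rw [ph, Pi.sub_apply, chi_of_not_le h1, chi_of_not_le h3, sub_zero]

theorem ph_abs (i : W) (f : W → Bool) (s : Nd W) : |ph i f s| ≤ 1 := by
  by_cases h : s ≤ full f ∧ s.v i ≠ none
  · rw [ph_one h]; norm_num
  · rw [ph_zero h]; norm_num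

/-- the corresponding functional -/
noncomputable def uu (i : W) (f : W → Bool) : StrongDual ℝ (L1 W) := mk (ph i f) 1 (ph_abs i f)

theorem uu_dl (i : W) (f : W → Bool) (s : Nd W) : uu i f (dl s) = ph i f s := by
  rw [← ev_apply, uu, ev_mk]

theorem uu_mem (i : W) (f : W → Bool) : uu i f ∈ Y W := by
  rw [mem_Y, uu, ev_mk]
  exact Submodule.sub_mem _ (chi_mem _) (chi_mem _)

theorem norm_uu (i : W) (f : W → Bool) : ‖uu i f‖ ≤ 1 := norm_mk _ _ _ zero_le_one

variable [WellFoundedLT W]

theorem fail (hW : Good W) (Φ : StrongDual ℝ (L1 W) → Set (L1 W))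
    (hΦ : ∀ F ∈ Y W, (Φ F).Countable) :
    ∃ M : Set (StrongDual ℝ (L1 W)), M.Countable ∧ M ⊆ Y W ∧
      ∃ h ∈ wsClosure (Submodule.span ℝ M : Set (StrongDual ℝ (L1 W))) ∩ ann (img Φ M), h ≠ 0 := by
  classical
  let V : W → (W → Bool) → Set (Nd W) := fun i f => ⋃ x ∈ Φ (uu i f), {s | x s ≠ 0}
  have hV : ∀ i f, (V i f).Countable := by
    intro i f
    refine (hΦ _ (uu_mem i f)).biUnion fun x _ => ?_
    have h1 : Summable (fun s => x s) := (hasSum_norm_L1 x).summable.of_abs
    exact h1.countable_support
  obtain ⟨i, f, e, he, hfin⟩ := comb hW V hV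
  let u : ℕ → StrongDual ℝ (L1 W) := fun n => uu (i n) (f n)
  let g : ℕ → StrongDual ℝ (L1 W) := fun k => (1 / ((k : ℝ) + 1)) • ∑ n ∈ Finset.range (k + 1), u n
  have hgval : ∀ k s, g k (dl s) =
      (1 / ((k : ℝ) + 1)) * ∑ n ∈ Finset.range (k + 1), ph (i n) (f n) s := by
    intro k s
    simp only [g, u, smul_apply, sum_apply, smul_eq_mul,
      uu_dl]
  have hgnorm : ∀ k, ‖g k‖ ≤ 1 := by
    intro k
    have h1 : ‖∑ n ∈ Finset.range (k + 1), u n‖ ≤ (k : ℝ) + 1 := by
      refine (norm_sum_le _ _).trans ?_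
      refine (Finset.sum_le_card_nsmul _ _ 1 fun n _ => norm_uu _ _).trans ?_
      simp
    have h2 : (0 : ℝ) < (k : ℝ) + 1 := by positivity
    rw [norm_smul, Real.norm_eq_abs, abs_of_pos (by positivity)]
    calc 1 / ((k : ℝ) + 1) * ‖∑ n ∈ Finset.range (k + 1), u n‖
        ≤ 1 / ((k : ℝ) + 1) * ((k : ℝ) + 1) := by gcongr
      _ = 1 := by field_simp
  -- a cluster point
  have hcomp := WeakDual.isCompact_closedBall (𝕜 := ℝ) (0 : StrongDual ℝ (L1 W)) 1
  obtain ⟨h', _, hh'⟩ := hcomp.ultrafilter_le_nhds
    ((hyperfilter ℕ).map fun k => StrongDual.toWeakDual (g k)) (by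
      rw [le_principal_iff, Ultrafilter.mem_coe, Ultrafilter.mem_map]
      refine Filter.univ_mem' fun k => ?_
      have h1 := hgnorm k
      simpa using h1)
  let h : StrongDual ℝ (L1 W) := WeakDual.toStrongDual h'
  have hlim : ∀ x : L1 W, Tendsto (fun k => g k x) (hyperfilter ℕ : Filter ℕ) (𝓝 (h x)) := by
    intro x
    have h1 : Tendsto (fun k => StrongDual.toWeakDual (g k)) (hyperfilter ℕ : Filter ℕ) (𝓝 h') :=
      hh'
    exact ((continuous_eval x).tendsto h').comp h1
  have hhyp : (hyperfilter ℕ : Filter ℕ) ≤ atTop := by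
    rw [← Nat.cofinite_eq_atTop]
    exact hyperfilter_le_cofinite
  refine ⟨range u, countable_range u, ?_, h, ⟨?_, ?_⟩, ?_⟩
  · rintro _ ⟨n, rfl⟩
    exact uu_mem _ _
  · change StrongDual.toWeakDual h ∈ closure (StrongDual.toWeakDual ''
      (Submodule.span ℝ (range u) : Set (StrongDual ℝ (L1 W))))
    rw [mem_closure_iff_ultrafilter]
    refine ⟨(hyperfilter ℕ).map fun k => StrongDual.toWeakDual (g k), ?_, hh'⟩
    rw [Ultrafilter.mem_map]
    refine Filter.univ_mem' fun k => ⟨g k, ?_, rfl⟩
    exact Submodule.smul_mem _ _ (Submodule.sum_mem _ fun n _ =>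
      Submodule.subset_span ⟨n, rfl⟩)
  · intro x hx
    obtain ⟨_, ⟨m, rfl⟩, hxm⟩ := mem_iUnion₂.1 hx
    have hsum : ∀ k, g k x = ∑' s, x s * g k (dl s) := fun k => (hasSum_L1 (g k) x).tsum_eq.symm
    have hzero : Tendsto (fun k => g k x) atTop (𝓝 0) := by
      have h0 : (0 : ℝ) = ∑' _ : Nd W, (0 : ℝ) := by simp
      rw [h0]
      simp_rw [hsum]
      refine tendsto_tsum_of_dominated_convergence (bound := fun s => |x s|)
        (hasSum_norm_L1 x).summable ?_ ?_
      · intro s
        by_cases hs : x s = 0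
        · simp [hs]
        · have hsV : s ∈ V (i m) (f m) := mem_iUnion₂.2 ⟨x, hxm, hs⟩
          have hA := hfin m s hsV
          have hb : ∀ k, |x s * g k (dl s)| ≤ |x s| * hA.toFinset.card * (1 / ((k : ℝ) + 1)) := by
            intro k
            have hk : (0 : ℝ) < 1 / ((k : ℝ) + 1) := by positivity
            have h3 : |∑ n ∈ Finset.range (k + 1), ph (i n) (f n) s| ≤ hA.toFinset.card := by
              refine (Finset.abs_sum_le_sum_abs _ _).trans ?_
              calc ∑ n ∈ Finset.range (k + 1), |ph (i n) (f n) s|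
                  ≤ ∑ n ∈ Finset.range (k + 1), (if n ∈ hA.toFinset then (1 : ℝ) else 0) := by
                    refine Finset.sum_le_sum fun n _ => ?_
                    by_cases hn : s ≤ full (f n) ∧ s.v (i n) ≠ none
                    · rw [if_pos (hA.mem_toFinset.2 hn)]
                      exact ph_abs _ _ _
                    · rw [if_neg (fun hc => hn (hA.mem_toFinset.1 hc)), ph_zero hn, abs_zero]
                _ = (((Finset.range (k + 1)).filter (· ∈ hA.toFinset)).card : ℝ) := by
                    rw [Finset.sum_ite]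
                    simp
                _ ≤ hA.toFinset.card := by
                    norm_cast
                    refine Finset.card_le_card fun n hn => ?_
                    exact (Finset.mem_filter.1 hn).2
            rw [hgval, abs_mul, abs_mul, abs_of_pos hk]
            calc |x s| * (1 / ((k : ℝ) + 1) * |∑ n ∈ Finset.range (k + 1), ph (i n) (f n) s|)
                ≤ |x s| * (1 / ((k : ℝ) + 1) * hA.toFinset.card) := by gcongr
              _ = |x s| * hA.toFinset.card * (1 / ((k : ℝ) + 1)) := by ring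
          rw [tendsto_zero_iff_abs_tendsto_zero]
          have h4 : Tendsto (fun k : ℕ => |x s| * hA.toFinset.card * (1 / ((k : ℝ) + 1))) atTop
              (𝓝 0) := by
            have := (tendsto_one_div_add_atTop_nhds_zero_nat (𝕜 := ℝ)).const_mul
              (|x s| * (hA.toFinset.card : ℝ))
            simpa using this
          exact squeeze_zero (fun _ => abs_nonneg _) hb h4
      · refine Eventually.of_forall fun k s => ?_
        rw [Real.norm_eq_abs, abs_mul]
        have h5 : |g k (dl s)| ≤ 1 := (ev_le (g k) s).trans (hgnorm k)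
        exact mul_le_of_le_one_right (abs_nonneg _) h5
    exact tendsto_nhds_unique (hlim x) (hzero.mono_left hhyp)
  · intro hc
    have h1 : ∀ k, g k (dl e) = 1 := by
      intro k
      have h2 : (0 : ℝ) < (k : ℝ) + 1 := by positivity
      rw [hgval, Finset.sum_congr rfl fun n _ => ph_one (he n)]
      simp only [Finset.sum_const, Finset.card_range, nsmul_eq_mul, mul_one, Nat.cast_add,
        Nat.cast_one]
      field_simp
    have h2 := hlim (dl e)
    simp_rw [h1] at h2
    have h3 := tendsto_nhds_unique h2 tendsto_const_nhds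
    rw [hc] at h3
    simp at h3

end Pool.Agent.H110.PG
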